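import Pool.Agent.Run7.h919.TF.Iface

/-!
The piece FIN of project TF (helper942).
-/

set_option autoImplicit false
set_option linter.unusedSectionVars false

namespace Pool.Agent.Run7.h942.TF

open Finset Pool.Agent.H916R2 Pool.Agent.H916T Pool.Agent.H916U Pool.Agent.H916Z Pool.Agent.H916Q Pool.Agent.N992
open Run7.h919.TF

lemma modu_lift {m0 m k : ℕ} [NeZero m0] [NeZero m] (h : k * m0 = m) {s : Multiset (ZMod m0)}
    (hs : Modu m0 s) : Modu m (s.map (iota k : ZMod m0 → ZMod m)) := by
  obtain ⟨L, r, h1, h2, rfl⟩ := hs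
  refine ⟨L.map (fun b => b.map (iota k : ZMod m0 → ZMod m)), r.map (iota k), ?_, ?_, ?_⟩
  · intro b hb
    obtain ⟨b', hb', rfl⟩ := List.mem_map.mp hb
    exact (h1 b' hb').lift h
  · intro a ha
    obtain ⟨a', ha', rfl⟩ := Multiset.mem_map.mp ha
    have h3 := iota_natMul h 12 a'
    have h4 := h2 a' ha'
    push_cast at h3
    rw [← h3, h4, iota_zero]
  · rw [Multiset.map_add]
    congr 1
    clear h1
    induction L with
    | nil => simp
    | cons b L ih => rw [List.sum_cons, Multiset.map_add, ih, List.map_cons, List.sum_cons]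

lemma modularTate_lift {p m0 m k : ℕ} [NeZero m0] [NeZero m] (h : k * m0 = m) (hpm : p.Coprime m)
    {s : Multiset (ZMod m0)} (hs : ModularTate p m0 s) :
    ModularTate p m (s.map (iota k : ZMod m0 → ZMod m)) :=
  ⟨Pool.Agent.H916Y.isTate_iota h hpm hs.1, modu_lift h hs.2⟩

lemma modularTate_neg {p m : ℕ} [NeZero m] (hpm : p.Coprime m) {s : Multiset (ZMod m)}
    (hs : ModularTate p m s) : ModularTate p m (s.map Neg.neg) :=
  ⟨hs.1.neg hpm, hs.2.neg⟩

lemma dead_all {p : ℕ} (S : Finset ℕ) (hS : ∀ q ∈ S, q.Prime ∧ q % 4 = 3 ∧ jacobiSym p q = -1) :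
    Pool.Agent.H916Y.Dead p S := by
  refine ⟨∏ q ∈ S, (q / 2), ?_⟩
  refine Finset.prod_primes_dvd _ (fun q hq => (hS q hq).1.prime) fun q hq => ?_
  obtain ⟨hqp, hq4, hj⟩ := hS q hq
  have hf : Fact q.Prime := ⟨hqp⟩
  have h1 : ∏ r ∈ S, (r / 2) = q / 2 * ∏ r ∈ S.erase q, (r / 2) := (Finset.mul_prod_erase S _ hq).symm
  have h2 : Odd (∏ r ∈ S.erase q, (r / 2)) := by
    refine Finset.prod_induction _ Odd (fun a b ha hb => ha.mul hb) odd_one fun r hr => ?_
    have h3 := (hS r (Finset.mem_of_mem_erase hr)).2.1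
    rw [Nat.odd_iff]
    omega
  have h4 : ((p : ℕ) : ZMod q) ^ (q / 2) = -1 := by
    have h5 := legendreSym.eq_pow q p
    rw [← jacobiSym.legendreSym.to_jacobiSym] at hj
    rw [hj] at h5
    push_cast at h5
    exact h5.symm
  rw [← ZMod.natCast_eq_zero_iff]
  push_cast
  rw [h1, pow_mul, h4, h2.neg_one_pow]
  ring

theorem t_FIN : S_REC → S_FIN := by
  intro hREC p m hp hm hpm hdeg s hs hne
  classical
  have hz : NeZero m := ⟨hm.ne'⟩
  obtain ⟨h, hh, hE⟩ := hREC p m hpm hdeg s hs
  have hT : IsTate p m (s + h) := by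
    rcases hh with rfl | hh
    · rwa [add_zero]
    · exact Pool.Agent.H916Y.isTate_add hpm hs hh.1
  have hne' : s + h ≠ 0 := by
    intro h0
    have h1 := congrArg Multiset.card h0
    rw [Multiset.card_add, Multiset.card_zero] at h1
    exact hne (Multiset.card_eq_zero.1 (by omega))
  obtain ⟨N, hN, hpN, HN⟩ := Pool.Agent.TH540.parity_fix (k := 1) hp hm one_pos (one_mul m) hpm hT hne'
    (fun S => S ⊆ m.primeFactors ∧ 2 ∉ S ∧ ∃ q ∈ S, jacobiSym p q = 1)
    (fun S hS => hE S hS.1 hS.2.1 hS.2.2) (by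
      intro a ha0 ham hE'
      by_cases h2 : 2 ∣ addOrderOf a
      · obtain ⟨d, hd⟩ := h2.trans (addOrderOf_dvd_level a)
        exact Pool.Agent.TH540.fix_null (Pool.Agent.TH540.null_even hd.symm ha0 h2)
      · set S := (addOrderOf a).primeFactors with hS
        have hpos := addOrderOf_pos a
        have hSne : S.Nonempty := by
          rw [Finset.nonempty_iff_ne_empty]
          intro h
          rw [hS, Nat.primeFactors_eq_empty] at h
          rcases h with h | h
          · exact hpos.ne' h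
          · rw [AddMonoid.addOrderOf_eq_one_iff] at h
            exact ha0 h
        have hprime : ∀ q ∈ S, q.Prime := fun q hq => Nat.prime_of_mem_primeFactors hq
        have h2S : 2 ∉ S := fun h => h2 (Nat.dvd_of_mem_primeFactors h)
        have hSm : S ⊆ m.primeFactors := Nat.primeFactors_mono ham hm.ne'
        have hneg : ∀ q ∈ S, q.Prime ∧ q % 4 = 3 ∧ jacobiSym p q = -1 := by
          intro q hq
          have hqm : q ∣ m := Nat.dvd_of_mem_primeFactors (hSm hq)
          have hq2 : q ≠ 2 := fun h => h2S (h ▸ hq)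
          refine ⟨hprime q hq, (hdeg.1 q (hprime q hq) hqm).resolve_left hq2, ?_⟩
          rcases jacobiSym.trichotomy (p : ℤ) q with h0 | h0 | h0
          · exfalso
            rw [jacobiSym.eq_zero_iff] at h0
            apply h0.2
            rw [Int.gcd_natCast_natCast]
            exact Nat.Coprime.coprime_dvd_right hqm hpm
          · exact absurd ⟨hSm, h2S, q, hq, h0⟩ hE'
          · exact h0
        set n := ∏ q ∈ S, q with hn
        have hna : n ∣ addOrderOf a := Nat.prod_primeFactors_dvd _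
        have hnm : n ∣ m := hna.trans ham
        have hn2 : ¬ 2 ∣ n := fun h => h2 (h.trans hna)
        have hn1 : 1 < n := by
          obtain ⟨q, hq⟩ := hSne
          have h1 : q ∣ n := Finset.dvd_prod_of_mem _ hq
          have h3 := (hprime q hq).one_lt
          have h4 := Nat.le_of_dvd (Nat.pos_of_ne_zero (by rintro h; rw [h] at hn2; exact hn2 (dvd_zero 2))) h1
          omega
        have hxo := Pool.Agent.TH540.order_elem (M := m) hnm
        have hx0 := Pool.Agent.TH540.ne_zero_of_order hxo hn1.ne'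
        have hax : Pool.Agent.TH540.EL p a ((m / n : ℕ) : ZMod m) := by
          refine Pool.Agent.TH540.el_supp ha0 hx0 ?_
          rw [hxo, hn, Nat.primeFactors_prod hprime]
        obtain ⟨j, hj⟩ := dead_all S hneg
        refine Pool.Agent.TH540.fix_link hax (Pool.Agent.TH540.fix_null
          (Pool.Agent.TH540.fix_neg_one (k := j) hxo hn1.ne' ?_))
        have h1 : ((p ^ j + 1 : ℕ) : ZMod n) = 0 := (ZMod.natCast_eq_zero_iff _ _).mpr hj
        push_cast at h1
        linear_combination h1)
  have hNm : 0 < N * m := Nat.mul_pos hN hm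
  have hzN : NeZero (N * m) := ⟨hNm.ne'⟩
  have hpNm : p.Coprime (N * m) := Nat.Coprime.mul_right hpN hpm
  refine ⟨N, hN, hpN, hzN, ?_⟩
  have G1 := generated_mono (base' := fun t => SurfaceTate p (N * m) t ∨ ModularTate p (N * m) t ∨
        ∃ q : ℕ, q.Prime ∧ q ∣ N * m ∧ Standard q (N * m) t) (fun t ht => by
      rcases ht with ht | ht
      · exact Or.inl ht
      · exact Or.inr (Or.inr ht)) (HN (N * m) rfl)
  show Pool.Agent.H916T.Generated (N * m) _ (s.map (iota N : ZMod m → ZMod (N * m)))
  rcases hh with rfl | hh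
  · rwa [add_zero] at G1
  · have hH := modularTate_lift (k := N) (m := N * m) rfl hpNm hh
    have hHn := modularTate_neg hpNm hH
    have G2 := Pool.Agent.H916T.Generated.join _ _ G1
      (Pool.Agent.H916T.Generated.ofBase (base := fun t => SurfaceTate p (N * m) t ∨ ModularTate p (N * m) t ∨
        ∃ q : ℕ, q.Prime ∧ q ∣ N * m ∧ Standard q (N * m) t) _ (Or.inr (Or.inl hHn)))
    rw [Multiset.map_add, add_assoc] at G2
    exact Pool.Agent.H916Y.cancel_multi _ _ G2

end Pool.Agent.Run7.h942.TF
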