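import Pool.Agent.Run7.h919.TF.Iface2

/-!
The piece REC3 of project TF (helper942).
-/

set_option autoImplicit false
set_option linter.unusedSectionVars false

namespace Pool.Agent.Run7.h942.TF

open Finset Pool.Agent.H916R2 Pool.Agent.H916T Pool.Agent.H916U Pool.Agent.H916Z Pool.Agent.H916Q Pool.Agent.N992
open Run7.h919.TF

lemma prod_dvd_level {m : ℕ} [NeZero m] {S : Finset ℕ} (hS : S ⊆ m.primeFactors) : (∏ q ∈ S, q) ∣ m :=
  (Finset.prod_dvd_prod_of_subset _ _ _ hS).trans (Nat.prod_primeFactors_dvd m)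

lemma jac_pm {p n : ℕ} (h : p.Coprime n) (h1 : jacobiSym p n ≠ -1) : jacobiSym p n = 1 := by
  rcases jacobiSym.trichotomy (p : ℤ) n with h0 | h0 | h0
  · exfalso
    rw [jacobiSym.eq_zero_iff] at h0
    apply h0.2
    rw [Int.gcd_natCast_natCast]
    exact h
  · exact h0
  · exact absurd h0 h1

theorem t_REC3 : S_PAR3 → S_EXH → S_EX4 → S_REC3 := by
  intro hPAR hEXH hEX4 p m _ hpm hdeg s hs
  classical
  set 𝓟 : Finset (Finset ℕ) := m.primeFactors.powerset.filter fun S => 2 ∉ S ∧ ∃ q ∈ S, jacobiSym p q = 1 with h𝓟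
  have hmem : ∀ S : Finset ℕ, S ∈ 𝓟 ↔ S ⊆ m.primeFactors ∧ 2 ∉ S ∧ ∃ q ∈ S, jacobiSym p q = 1 := by
    intro S
    rw [h𝓟, Finset.mem_filter, Finset.mem_powerset]
  have key : ∀ (k : ℕ) (𝓕 : Finset (Finset ℕ)), 𝓕.card = k → 𝓕 ⊆ 𝓟 →
      (∀ S ∈ 𝓕, ∀ V ∈ 𝓟, S ⊆ V → V ∈ 𝓕) →
      ∃ h : Multiset (ZMod m), (h = 0 ∨ ModularTate p m h) ∧ ∀ S ∈ 𝓕, Even ((s + h).countP (Supp S)) := by
    intro k
    induction k with
    | zero =>
      intro 𝓕 hc _ _
      rw [Finset.card_eq_zero] at hc
      subst hc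
      exact ⟨0, Or.inl rfl, fun S hS => absurd hS (Finset.notMem_empty S)⟩
    | succ k ih =>
      intro 𝓕 hc hsub hup
      have hne : 𝓕.Nonempty := by
        rw [← Finset.card_pos]
        omega
      obtain ⟨S, hS, hmin⟩ := Finset.exists_min_image 𝓕 Finset.card hne
      have hdiff : ∀ V ∈ 𝓕.erase S, V ⊆ S → False := by
        intro V hV hVS
        obtain ⟨h1, h2⟩ := Finset.mem_erase.1 hV
        exact h1 (Finset.eq_of_subset_of_card_le hVS (hmin V h2))
      have hup' : ∀ V ∈ 𝓕.erase S, ∀ W ∈ 𝓟, V ⊆ W → W ∈ 𝓕.erase S := by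
        intro V hV W hW hVW
        refine Finset.mem_erase.2 ⟨?_, hup V (Finset.mem_of_mem_erase hV) W hW hVW⟩
        rintro rfl
        exact hdiff V hV hVW
      obtain ⟨h', hh', hE'⟩ := ih (𝓕.erase S) (by rw [Finset.card_erase_of_mem hS]; omega)
        ((Finset.erase_subset _ _).trans hsub) hup'
      have hT : IsTate p m (s + h') := by
        rcases hh' with rfl | hh'
        · rwa [add_zero]
        · exact Pool.Agent.H916Y.isTate_add hpm hs hh'.1
      obtain ⟨hSm, h2S, q0, hq0, hj0⟩ := (hmem S).1 (hsub hS)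
      have hS4 : ∀ q ∈ S, q % 4 = 3 := by
        intro q hq
        have hq2 : q ≠ 2 := fun h => h2S (h ▸ hq)
        exact (hdeg q (Nat.prime_of_mem_primeFactors (hSm hq)) (Nat.dvd_of_mem_primeFactors (hSm hq))).resolve_left hq2
      -- adding a correction
      have fin : ∀ h : Multiset (ZMod m), ModularTate p m h → ¬ Even (h.countP (Supp S)) →
          (∀ V : Finset ℕ, 2 ∉ V → ¬ Even (h.countP (Supp V)) → V ⊆ S) → ¬ Even ((s + h').countP (Supp S)) →
          ∃ h : Multiset (ZMod m), (h = 0 ∨ ModularTate p m h) ∧ ∀ S ∈ 𝓕, Even ((s + h).countP (Supp S)) := by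
        intro h hh h1 h2 h3
        refine ⟨h' + h, Or.inr ?_, ?_⟩
        · rcases hh' with rfl | hh'
          · rwa [zero_add]
          · exact ⟨Pool.Agent.H916Y.isTate_add hpm hh'.1 hh.1, hh'.2.add hh.2⟩
        · intro V hV
          rw [← add_assoc, Multiset.countP_add]
          by_cases hVS : V = S
          · rw [hVS, Nat.even_add]
            exact ⟨fun h4 => absurd h4 h3, fun h4 => absurd h4 h1⟩
          · have hV' : V ∈ 𝓕.erase S := Finset.mem_erase.2 ⟨hVS, hV⟩
            refine (hE' V hV').add ?_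
            by_contra hcon
            exact hdiff V hV' (h2 V ((hmem V).1 (hsub hV)).2.1 hcon)
      by_cases hev : Even ((s + h').countP (Supp S))
      · refine ⟨h', hh', fun V hV => ?_⟩
        by_cases hVS : V = S
        · rw [hVS]; exact hev
        · exact hE' V (Finset.mem_erase.2 ⟨hVS, hV⟩)
      by_cases hA : Even S.card ∨ jacobiSym p (∏ q ∈ S, q) = -1
      · obtain ⟨h, h1, h2, h3⟩ := hEXH p m hpm S hSm hS4 ⟨q0, hq0, hj0⟩ hA
        exact fin h h1 h2 (fun V _ hV => h3 V hV) hev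
      · push Not at hA
        obtain ⟨hodd, hj⟩ := hA
        have hodd' : Odd S.card := Nat.not_even_iff_odd.1 hodd
        have hcop : p.Coprime (∏ q ∈ S, q) := Nat.Coprime.coprime_dvd_right (prod_dvd_level hSm) hpm
        have hj1 := jac_pm hcop hj
        by_cases hB : 4 ∣ m ∧ jacobiSym 2 (∏ q ∈ S, q) = -1
        · obtain ⟨h, h1, h2, h3⟩ := hEX4 p m hpm hB.1 S hSm h2S hS4 hodd' hB.2
          exact fin h h1 h2 h3 hev
        · exfalso
          apply hev
          refine hPAR p m hpm hdeg (s + h') (fun t => hT.W_sum hpm t) S hSm h2S hodd' hj1 ?_ ?_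
          · by_cases h4 : 4 ∣ m
            · right
              have h5 : jacobiSym 2 (∏ q ∈ S, q) ≠ -1 := fun h => hB ⟨h4, h⟩
              have hc2 : Nat.Coprime 2 (∏ q ∈ S, q) := by
                refine Nat.Coprime.prod_right fun q hq => ?_
                rw [Nat.coprime_two_left]
                have := hS4 q hq
                rw [Nat.odd_iff]
                omega
              have := jac_pm (p := 2) hc2 (by exact_mod_cast h5)
              exact_mod_cast this
            · exact Or.inl h4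
          · intro V hVm hSV h2V
            have hV : V ∈ 𝓟 := (hmem V).2 ⟨hVm, h2V, q0, hSV.1 hq0, hj0⟩
            exact hE' V (Finset.mem_erase.2 ⟨fun h => hSV.2 (h ▸ Finset.Subset.refl _), hup S hS V hV hSV.1⟩)
  obtain ⟨h, hh, hE⟩ := key 𝓟.card 𝓟 rfl (Finset.Subset.refl _) (fun S _ V hV _ => hV)
  exact ⟨h, hh, fun S h1 h2 h3 => hE S ((hmem S).2 ⟨h1, h2, h3⟩)⟩

end Pool.Agent.Run7.h942.TF
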